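import Pool.Agent.Lib.P2d9e0f.Dep

set_option autoImplicit false

open Finset

namespace Pool.Agent.P2d9e0f

/-- The number of marked points of a group. -/
def nn (y : Fin 4 → Fin 6 → ZMod 2) (g : Fin 4) : ℕ := (univ.filter fun x => y g x = 1).card

/-- The number of marked points of a block. -/
def ss (π : Fin 4 → Fin 6 × Fin 6 → Fin 6) (y : Fin 4 → Fin 6 → ZMod 2) (b : Fin 6 × Fin 6) : ℕ :=
  (univ.filter fun g => y g (π g b) = 1).card

/-- The dependency condition. -/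
def Dp (π : Fin 4 → Fin 6 × Fin 6 → Fin 6) (y : Fin 4 → Fin 6 → ZMod 2) : Prop :=
  (∀ b, ∑ g, y g (π g b) = 0) ∧ ∃ g x x', y g x ≠ y g x'

theorem zmod_eq (a : ZMod 2) : a = if a = 1 then 1 else 0 := by
  revert a; decide

theorem ss_even {π : Fin 4 → Fin 6 × Fin 6 → Fin 6} {y : Fin 4 → Fin 6 → ZMod 2}
    (hy : Dp π y) (b : Fin 6 × Fin 6) : 2 ∣ ss π y b := by
  have h := hy.1 b
  rw [Finset.sum_congr rfl (fun g _ => zmod_eq (y g (π g b))), Finset.sum_boole] at h
  exact (ZMod.natCast_eq_zero_iff _ _).1 h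

theorem card_pair {π : Fin 4 → Fin 6 × Fin 6 → Fin 6}
    (H : ∀ g h, g ≠ h → Function.Bijective fun b => (π g b, π h b)) {g h : Fin 4} (hgh : g ≠ h)
    (x : Fin 6) (y : Fin 4 → Fin 6 → ZMod 2) :
    ((univ.filter fun b => π g b = x).filter fun b => y h (π h b) = 1).card = nn y h := by
  have hb := H g h hgh
  rw [nn]
  refine Finset.card_bij (fun b _ => π h b) ?_ ?_ ?_
  · intro b hb1
    simp only [Finset.mem_filter, Finset.mem_univ, true_and] at hb1 ⊢
    exact hb1.2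
  · intro b hb1 c hc1 hbc
    simp only [Finset.mem_filter, Finset.mem_univ, true_and] at hb1 hc1
    refine hb.1 ?_
    show (π g b, π h b) = (π g c, π h c)
    rw [hb1.1, hc1.1, hbc]
  · intro z hz
    obtain ⟨b, hb2⟩ := hb.2 (x, z)
    simp only [Prod.mk.injEq] at hb2
    simp only [Finset.mem_filter, Finset.mem_univ, true_and] at hz ⊢
    exact ⟨b, ⟨hb2.1, by rw [hb2.2]; exact hz⟩, hb2.2⟩

theorem sum_fiber {π : Fin 4 → Fin 6 × Fin 6 → Fin 6}
    (H : ∀ g h, g ≠ h → Function.Bijective fun b => (π g b, π h b)) (g : Fin 4)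
    (x : Fin 6) (y : Fin 4 → Fin 6 → ZMod 2) :
    (∑ b ∈ univ.filter fun b => π g b = x, ss π y b) + nn y g =
      (if y g x = 1 then 6 else 0) + ∑ h, nn y h := by
  have h1 : ∀ b, ss π y b = ∑ h, if y h (π h b) = 1 then 1 else 0 := by
    intro b
    rw [ss, Finset.card_filter]
  rw [Finset.sum_congr rfl (fun b _ => h1 b), Finset.sum_comm]
  rw [← Finset.add_sum_erase _ _ (Finset.mem_univ g),
    ← Finset.add_sum_erase (univ : Finset (Fin 4)) (nn y) (Finset.mem_univ g)]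
  have h2 : ∀ h ∈ univ.erase g,
      (∑ b ∈ univ.filter fun b => π g b = x, if y h (π h b) = 1 then 1 else 0) = nn y h := by
    intro h hh
    rw [← Finset.card_filter, card_pair H (Ne.symm (Finset.ne_of_mem_erase hh)) x y]
  rw [Finset.sum_congr rfl h2]
  have h3 : (∑ b ∈ univ.filter fun b => π g b = x, if y g (π g b) = 1 then 1 else 0) =
      if y g x = 1 then 6 else 0 := by
    rw [Finset.sum_congr rfl (fun b hb => by rw [(Finset.mem_filter.1 hb).2])]
    rw [Finset.sum_const, card_fiber H]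
    split_ifs <;> rfl
  rw [h3]
  ring

theorem two_le {π : Fin 4 → Fin 6 × Fin 6 → Fin 6} {y : Fin 4 → Fin 6 → ZMod 2}
    (hy : Dp π y) {b : Fin 6 × Fin 6} {g : Fin 4} (h : y g (π g b) = 1) : 2 ≤ ss π y b := by
  have h1 := ss_even hy b
  have h2 : 0 < ss π y b := Finset.card_pos.2 ⟨g, by simpa using h⟩
  omega

theorem twelve_le {π : Fin 4 → Fin 6 × Fin 6 → Fin 6}
    (H : ∀ g h, g ≠ h → Function.Bijective fun b => (π g b, π h b))
    {y : Fin 4 → Fin 6 → ZMod 2} (hy : Dp π y) {g : Fin 4} {x : Fin 6} (h : y g x = 1) :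
    12 ≤ ∑ b ∈ univ.filter fun b => π g b = x, ss π y b := by
  have h1 : ∑ b ∈ univ.filter (fun b => π g b = x), 2 ≤
      ∑ b ∈ univ.filter fun b => π g b = x, ss π y b := by
    refine Finset.sum_le_sum (fun b hb => two_le hy (g := g) ?_)
    rw [(Finset.mem_filter.1 hb).2]
    exact h
  rw [Finset.sum_const, card_fiber H] at h1
  exact h1

/-- If the sum over the fibre is exactly twelve then every block of it has exactly two marks. -/
theorem eq_two {π : Fin 4 → Fin 6 × Fin 6 → Fin 6}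
    (H : ∀ g h, g ≠ h → Function.Bijective fun b => (π g b, π h b))
    {y : Fin 4 → Fin 6 → ZMod 2} (hy : Dp π y) {g : Fin 4} {b : Fin 6 × Fin 6}
    (h : y g (π g b) = 1)
    (h12 : ∑ c ∈ univ.filter fun c => π g c = π g b, ss π y c = 12) : ss π y b = 2 := by
  have hmem : b ∈ univ.filter fun c => π g c = π g b := by simp
  have h1 : ∑ c ∈ univ.filter (fun c => π g c = π g b), 2 =
      ∑ c ∈ univ.filter fun c => π g c = π g b, ss π y c := by
    rw [h12, Finset.sum_const, card_fiber H]; rfl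
  have h2 := (Finset.sum_eq_sum_iff_of_le (fun c hc => two_le hy (g := g) (by
    rw [(Finset.mem_filter.1 hc).2]; exact h))).1 h1 b hmem
  exact h2.symm

theorem nn_flip (y : Fin 4 → Fin 6 → ZMod 2) (g : Fin 4) (f : Fin 4 → ZMod 2) (hf : f g = 1) :
    nn (fun k x => y k x + f k) g + nn y g = 6 := by
  rw [nn, nn]
  have : (univ.filter fun x => y g x + f g = 1) = univ.filter fun x => ¬ (y g x = 1) := by
    refine Finset.filter_congr (fun x _ => ?_)
    rw [hf]
    generalize y g x = a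
    revert a; decide
  rw [this, add_comm, Finset.card_filter_add_card_filter_not]
  rfl

theorem nn_same (y : Fin 4 → Fin 6 → ZMod 2) (g : Fin 4) (f : Fin 4 → ZMod 2) (hf : f g = 0) :
    nn (fun k x => y k x + f k) g = nn y g := by
  rw [nn, nn]
  simp only [hf, add_zero]

theorem dp_flip {π : Fin 4 → Fin 6 × Fin 6 → Fin 6} {y : Fin 4 → Fin 6 → ZMod 2}
    (hy : Dp π y) (f : Fin 4 → ZMod 2) (hf : ∑ g, f g = 0) : Dp π (fun k x => y k x + f k) := by
  refine ⟨fun b => ?_, ?_⟩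
  · rw [Finset.sum_add_distrib, hf, hy.1 b, add_zero]
  · obtain ⟨g, x, x', h⟩ := hy.2
    exact ⟨g, x, x', fun h' => h (add_right_cancel h')⟩

theorem nn_le (y : Fin 4 → Fin 6 → ZMod 2) (g : Fin 4) : nn y g ≤ 6 := by
  refine (Finset.card_le_univ _).trans ?_
  simp

theorem fin4 (g : Fin 4) : g = 0 ∨ g = 1 ∨ g = 2 ∨ g = 3 := by
  revert g; decide

theorem num_step {x y z w : ℕ} (hx : 2 ∣ x) (hy : 2 ∣ y) (hz : 2 ∣ z) (hw : 2 ∣ w)
    (p1 : x + y ≤ 6) (p2 : x + z ≤ 6) (p3 : x + w ≤ 6)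
    (r : 0 < x → 6 + x ≤ x + y + z + w) (f : x = 4 → x + y + z + w = 10 → False) : x ≤ 2 := by
  by_contra h
  have h1 := r (by omega)
  clear r
  have h2 : x = 4 := by
    clear f
    omega
  have h3 : x + y + z + w = 10 := by
    clear f
    omega
  exact f h2 h3

theorem num (a b c d : ℕ)
    (q0 : 2 ∣ a + (a + b + c + d)) (q1 : 2 ∣ b + (a + b + c + d)) (q2 : 2 ∣ c + (a + b + c + d))
    (q3 : 2 ∣ d + (a + b + c + d))
    (p01 : a + b ≤ 6) (p02 : a + c ≤ 6) (p03 : a + d ≤ 6) (p12 : b + c ≤ 6) (p13 : b + d ≤ 6)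
    (p23 : c + d ≤ 6)
    (r0 : 0 < a → 6 + a ≤ a + b + c + d) (r1 : 0 < b → 6 + b ≤ a + b + c + d)
    (r2 : 0 < c → 6 + c ≤ a + b + c + d) (r3 : 0 < d → 6 + d ≤ a + b + c + d)
    (f0 : a = 4 → a + b + c + d = 10 → False) (f1 : b = 4 → a + b + c + d = 10 → False)
    (f2 : c = 4 → a + b + c + d = 10 → False) (f3 : d = 4 → a + b + c + d = 10 → False)
    (hex : 0 < a ∨ 0 < b ∨ 0 < c ∨ 0 < d) :
    a = 2 ∧ b = 2 ∧ c = 2 ∧ d = 2 := by
  have ea : 2 ∣ a := by clear r0 r1 r2 r3 f0 f1 f2 f3 hex; omega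
  have eb : 2 ∣ b := by clear r0 r1 r2 r3 f0 f1 f2 f3 hex; omega
  have ec : 2 ∣ c := by clear r0 r1 r2 r3 f0 f1 f2 f3 hex; omega
  have ed : 2 ∣ d := by clear r0 r1 r2 r3 f0 f1 f2 f3 hex; omega
  have a2 : a ≤ 2 := num_step ea eb ec ed p01 p02 p03 r0 f0
  have b2 : b ≤ 2 := num_step eb ea ec ed (by clear r0 r1 r2 r3 f0 f1 f2 f3 hex; omega) p12 p13
    (fun h => by rw [add_comm b a]; exact r1 h)
    (fun h1 h2 => f1 h1 (by rw [add_comm a b]; exact h2))
  have c2 : c ≤ 2 := num_step (y := b) ec eb ea ed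
    (by clear r0 r1 r2 r3 f0 f1 f2 f3 hex; omega) (by clear r0 r1 r2 r3 f0 f1 f2 f3 hex; omega) p23
    (fun h => by
      have h5 := r2 h
      clear r0 r1 r2 r3 f0 f1 f2 f3 hex q0 q1 q2 q3 p01 p02 p03 p12 p13 p23 ea eb ec ed
      omega)
    (fun h1 h2 => f2 h1 (by
      clear r0 r1 r2 r3 f0 f1 f2 f3 hex q0 q1 q2 q3 p01 p02 p03 p12 p13 p23 ea eb ec ed
      omega))
  have d2 : d ≤ 2 := num_step (y := b) ed eb ec ea
    (by clear r0 r1 r2 r3 f0 f1 f2 f3 hex; omega) (by clear r0 r1 r2 r3 f0 f1 f2 f3 hex; omega)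
    (by clear r0 r1 r2 r3 f0 f1 f2 f3 hex; omega)
    (fun h => by
      have h5 := r3 h
      clear r0 r1 r2 r3 f0 f1 f2 f3 hex q0 q1 q2 q3 p01 p02 p03 p12 p13 p23 ea eb ec ed
      omega)
    (fun h1 h2 => f3 h1 (by
      clear r0 r1 r2 r3 f0 f1 f2 f3 hex q0 q1 q2 q3 p01 p02 p03 p12 p13 p23 ea eb ec ed
      omega))
  rcases hex with h | h | h | h
  · have h5 := r0 h
    clear r0 r1 r2 r3 f0 f1 f2 f3 q0 q1 q2 q3 p01 p02 p03 p12 p13 p23
    omega
  · have h5 := r1 h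
    clear r0 r1 r2 r3 f0 f1 f2 f3 q0 q1 q2 q3 p01 p02 p03 p12 p13 p23
    omega
  · have h5 := r2 h
    clear r0 r1 r2 r3 f0 f1 f2 f3 q0 q1 q2 q3 p01 p02 p03 p12 p13 p23
    omega
  · have h5 := r3 h
    clear r0 r1 r2 r3 f0 f1 f2 f3 q0 q1 q2 q3 p01 p02 p03 p12 p13 p23
    omega

theorem exists_two {π : Fin 4 → Fin 6 × Fin 6 → Fin 6}
    (H : ∀ g h, g ≠ h → Function.Bijective fun b => (π g b, π h b)) :
    ∃ y : Fin 4 → Fin 6 → ZMod 2, (∀ g, nn y g = 2) ∧ ∀ b, ss π y b = 0 ∨ ss π y b = 2 := by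
  classical
  obtain ⟨y, hy, hmin'⟩ : ∃ y, Dp π y ∧ ∀ z, Dp π z → ∑ g, nn y g ≤ ∑ g, nn z g := by
    obtain ⟨y0, hy0⟩ := exists_dep H
    have hex : ∃ n, ∃ y, Dp π y ∧ ∑ g, nn y g = n := ⟨_, y0, hy0, rfl⟩
    obtain ⟨y, hy, hn⟩ := Nat.find_spec hex
    refine ⟨y, hy, fun z hz => ?_⟩
    rw [hn]
    exact Nat.find_min' hex ⟨z, hz, rfl⟩
  -- pairs
  have hN : ∀ z : Fin 4 → Fin 6 → ZMod 2, ∑ g, nn z g = nn z 0 + nn z 1 + nn z 2 + nn z 3 := by
    intro z
    rw [Fin.sum_univ_four]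
  have p01 : nn y 0 + nn y 1 ≤ 6 := by
    have h := hmin' _ (dp_flip hy ![1, 1, 0, 0] (by decide))
    have e0 := nn_flip y 0 ![1, 1, 0, 0] rfl
    have e1 := nn_flip y 1 ![1, 1, 0, 0] rfl
    have e2 := nn_same y 2 ![1, 1, 0, 0] rfl
    have e3 := nn_same y 3 ![1, 1, 0, 0] rfl
    rw [hN, hN] at h
    omega
  have p02 : nn y 0 + nn y 2 ≤ 6 := by
    have h := hmin' _ (dp_flip hy ![1, 0, 1, 0] (by decide))
    have e0 := nn_flip y 0 ![1, 0, 1, 0] rfl
    have e1 := nn_flip y 2 ![1, 0, 1, 0] rfl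
    have e2 := nn_same y 1 ![1, 0, 1, 0] rfl
    have e3 := nn_same y 3 ![1, 0, 1, 0] rfl
    rw [hN, hN] at h
    omega
  have p03 : nn y 0 + nn y 3 ≤ 6 := by
    have h := hmin' _ (dp_flip hy ![1, 0, 0, 1] (by decide))
    have e0 := nn_flip y 0 ![1, 0, 0, 1] rfl
    have e1 := nn_flip y 3 ![1, 0, 0, 1] rfl
    have e2 := nn_same y 1 ![1, 0, 0, 1] rfl
    have e3 := nn_same y 2 ![1, 0, 0, 1] rfl
    rw [hN, hN] at h
    omega
  have p12 : nn y 1 + nn y 2 ≤ 6 := by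
    have h := hmin' _ (dp_flip hy ![0, 1, 1, 0] (by decide))
    have e0 := nn_flip y 1 ![0, 1, 1, 0] rfl
    have e1 := nn_flip y 2 ![0, 1, 1, 0] rfl
    have e2 := nn_same y 0 ![0, 1, 1, 0] rfl
    have e3 := nn_same y 3 ![0, 1, 1, 0] rfl
    rw [hN, hN] at h
    omega
  have p13 : nn y 1 + nn y 3 ≤ 6 := by
    have h := hmin' _ (dp_flip hy ![0, 1, 0, 1] (by decide))
    have e0 := nn_flip y 1 ![0, 1, 0, 1] rfl
    have e1 := nn_flip y 3 ![0, 1, 0, 1] rfl
    have e2 := nn_same y 0 ![0, 1, 0, 1] rfl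
    have e3 := nn_same y 2 ![0, 1, 0, 1] rfl
    rw [hN, hN] at h
    omega
  have p23 : nn y 2 + nn y 3 ≤ 6 := by
    have h := hmin' _ (dp_flip hy ![0, 0, 1, 1] (by decide))
    have e0 := nn_flip y 2 ![0, 0, 1, 1] rfl
    have e1 := nn_flip y 3 ![0, 0, 1, 1] rfl
    have e2 := nn_same y 0 ![0, 0, 1, 1] rfl
    have e3 := nn_same y 1 ![0, 0, 1, 1] rfl
    rw [hN, hN] at h
    omega
  -- parity
  have hpar : ∀ g, 2 ∣ nn y g + ∑ h, nn y h := by
    intro g
    have h1 := sum_fiber H g 0 y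
    have h2 : 2 ∣ ∑ b ∈ univ.filter fun b => π g b = 0, ss π y b :=
      Finset.dvd_sum (fun b _ => ss_even hy b)
    split_ifs at h1 <;> omega
  have q0 := hpar 0
  have q1 := hpar 1
  have q2 := hpar 2
  have q3 := hpar 3
  rw [hN] at q0 q1 q2 q3
  -- lower bound
  have hpos : ∀ g, 0 < nn y g → 6 + nn y g ≤ ∑ h, nn y h := by
    intro g hg
    obtain ⟨x, hx⟩ := Finset.card_pos.1 hg
    rw [Finset.mem_filter] at hx
    have h1 := sum_fiber H g x y
    have h2 := twelve_le H hy hx.2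
    rw [if_pos hx.2] at h1
    omega
  have r0 := hpos 0
  have r1 := hpos 1
  have r2 := hpos 2
  have r3 := hpos 3
  rw [hN] at r0 r1 r2 r3
  -- the case of a group with four marks is impossible
  have hfour : ∀ g, nn y g = 4 → (∑ h, nn y h = 10) → False := by
    intro g hg hs
    -- another group
    obtain ⟨h, hgh, hh⟩ : ∃ h, g ≠ h ∧ nn y h = 2 := by
      rw [hN] at hs
      by_cases e0 : g = 0
      · subst e0
        refine ⟨1, by decide, ?_⟩
        omega
      · refine ⟨0, e0, ?_⟩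
        rcases fin4 g with rfl | rfl | rfl | rfl
        · exact absurd rfl e0
        all_goals omega
    have hpos' : 0 < nn y h := by omega
    obtain ⟨x, hx⟩ := Finset.card_pos.1 hpos'
    rw [Finset.mem_filter] at hx
    have h1 := sum_fiber H h x y
    rw [if_pos hx.2, hs, hh] at h1
    -- some block with at least three, hence four, marks
    obtain ⟨b, hb, hb4⟩ : ∃ b ∈ univ.filter (fun b => π h b = x), 2 < ss π y b := by
      by_contra hcon
      push Not at hcon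
      have := Finset.sum_le_sum hcon
      rw [Finset.sum_const, card_fiber H] at this
      simp only [smul_eq_mul] at this
      omega
    have hall : y g (π g b) = 1 := by
      have he := ss_even hy b
      have h4 : 4 ≤ ss π y b := by omega
      have h5 : (univ.filter fun g => y g (π g b) = 1) = univ := by
        refine Finset.eq_univ_of_card _ ?_
        refine le_antisymm (Finset.card_le_univ _) ?_
        rw [Fintype.card_fin]
        exact h4
      have h6 : g ∈ univ.filter fun g => y g (π g b) = 1 := by rw [h5]; exact Finset.mem_univ _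
      exact (Finset.mem_filter.1 h6).2
    have h2 := sum_fiber H g (π g b) y
    rw [if_pos hall, hs, hg] at h2
    have h3 := eq_two H hy hall (by omega)
    omega
  have f0 := hfour 0
  have f1 := hfour 1
  have f2 := hfour 2
  have f3 := hfour 3
  rw [hN] at f0 f1 f2 f3
  -- some group is nonconstant
  have hex : ∃ g, 0 < nn y g := by
    obtain ⟨g, x, x', hxx⟩ := hy.2
    have key : ∀ a b : ZMod 2, a ≠ b → (a = 1 ∧ b ≠ 1) ∨ (b = 1 ∧ a ≠ 1) := by decide
    have hgt : ∀ z, y g z = 1 → 0 < nn y g := by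
      intro z hz
      exact Finset.card_pos.2 ⟨z, by rw [Finset.mem_filter]; exact ⟨Finset.mem_univ _, hz⟩⟩
    rcases key _ _ hxx with ⟨h1, h2⟩ | ⟨h1, h2⟩
    · exact ⟨g, hgt x h1⟩
    · exact ⟨g, hgt x' h1⟩
  have hall : nn y 0 = 2 ∧ nn y 1 = 2 ∧ nn y 2 = 2 ∧ nn y 3 = 2 := by
    obtain ⟨g, hg1⟩ := hex
    refine num _ _ _ _ q0 q1 q2 q3 p01 p02 p03 p12 p13 p23 r0 r1 r2 r3 f0 f1 f2 f3 ?_
    rcases fin4 g with rfl | rfl | rfl | rfl
    · exact Or.inl hg1
    · exact Or.inr (Or.inl hg1)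
    · exact Or.inr (Or.inr (Or.inl hg1))
    · exact Or.inr (Or.inr (Or.inr hg1))
  refine ⟨y, ?_, ?_⟩
  · intro g
    rcases fin4 g with rfl | rfl | rfl | rfl
    · exact hall.1
    · exact hall.2.1
    · exact hall.2.2.1
    · exact hall.2.2.2
  · intro b
    rcases Nat.eq_zero_or_pos (ss π y b) with h | h
    · exact Or.inl h
    · right
      obtain ⟨g, hg⟩ := Finset.card_pos.1 h
      rw [Finset.mem_filter] at hg
      have h2 := sum_fiber H g (π g b) y
      have hn : nn y g = 2 := by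
        rcases fin4 g with rfl | rfl | rfl | rfl
        · exact hall.1
        · exact hall.2.1
        · exact hall.2.2.1
        · exact hall.2.2.2
      rw [if_pos hg.2, hN, hn] at h2
      exact eq_two H hy hg.2 (by omega)

end Pool.Agent.P2d9e0f
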