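import Mathlib

set_option autoImplicit false

namespace Pool.Agent.P2d9e0f

/-- Three Latin squares of order six. -/
def sq : Fin 3 → Fin 6 → Fin 6 → Fin 6 :=
  ![![![0, 1, 2, 3, 4, 5], ![1, 5, 3, 0, 2, 4], ![2, 0, 4, 5, 1, 3], ![3, 4, 5, 1, 0, 2],
      ![4, 3, 0, 2, 5, 1], ![5, 2, 1, 4, 3, 0]],
    ![![0, 2, 1, 5, 4, 3], ![2, 5, 4, 3, 0, 1], ![4, 1, 2, 0, 3, 5], ![1, 3, 0, 4, 5, 2],
      ![3, 0, 5, 1, 2, 4], ![5, 4, 3, 2, 1, 0]],
    ![![0, 5, 4, 3, 1, 2], ![2, 3, 5, 1, 4, 0], ![5, 0, 3, 4, 2, 1], ![4, 1, 2, 5, 0, 3],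
      ![3, 2, 1, 0, 5, 4], ![1, 4, 0, 2, 3, 5]]]

/-- The row of the cell with given differences of the entries. -/
def rowOf : Fin 6 → Fin 6 → Fin 6 :=
  ![![0, 3, 5, 0, 1, 5], ![2, 1, 1, 3, 0, 2], ![0, 2, 5, 2, 2, 5], ![4, 1, 1, 4, 3, 4],
    ![5, 3, 1, 0, 5, 2], ![3, 4, 0, 3, 4, 4]]

/-- The column of the cell with given differences of the entries. -/
def colOf : Fin 6 → Fin 6 → Fin 6 :=
  ![![0, 5, 0, 4, 1, 5], ![1, 0, 2, 2, 1, 3], ![3, 4, 1, 0, 5, 2], ![4, 3, 5, 5, 3, 1],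
    ![4, 0, 4, 5, 3, 2], ![4, 2, 2, 1, 3, 0]]

/-- The three cubes. -/
def cube (i : Fin 3) (x : Fin 3 → Fin 6) : Fin 6 := sq i (x 0) (x 1) + x 2

/-- The inverse of the map given by the three cubes. -/
def phi (v : Fin 3 → Fin 6) : Fin 3 → Fin 6 :=
  ![rowOf (v 1 - v 0) (v 2 - v 0), colOf (v 1 - v 0) (v 2 - v 0),
    v 0 - sq 0 (rowOf (v 1 - v 0) (v 2 - v 0)) (colOf (v 1 - v 0) (v 2 - v 0))]

theorem key : ∀ u v w : Fin 6, ∀ i : Fin 3,
    sq i (rowOf (v - u) (w - u)) (colOf (v - u) (w - u)) +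
      (u - sq 0 (rowOf (v - u) (w - u)) (colOf (v - u) (w - u))) = ![u, v, w] i := by
  decide +kernel

theorem cube_phi (v : Fin 3 → Fin 6) (i : Fin 3) : cube i (phi v) = v i := by
  have h := key (v 0) (v 1) (v 2) i
  have e : ![v 0, v 1, v 2] i = v i := by fin_cases i <;> rfl
  rw [e] at h
  exact h

theorem phi_injective : Function.Injective phi := by
  intro v w h
  funext i
  rw [← cube_phi v i, h, cube_phi]

theorem sq_row : ∀ i : Fin 3, ∀ r c c' : Fin 6, sq i r c = sq i r c' → c = c' := by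
  decide +kernel

theorem sq_col : ∀ i : Fin 3, ∀ c r r' : Fin 6, sq i r c = sq i r' c → r = r' := by
  decide +kernel

theorem fin3 (j : Fin 3) : j = 0 ∨ j = 1 ∨ j = 2 := by
  revert j; decide

theorem cube_latin (i j : Fin 3) (x x' : Fin 3 → Fin 6) (h : ∀ k, k ≠ j → x k = x' k)
    (hx : cube i x = cube i x') : x = x' := by
  have hj : x j = x' j := by
    rw [cube, cube] at hx
    have hc : j = 0 ∨ j = 1 ∨ j = 2 := fin3 j
    rcases hc with rfl | rfl | rfl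
    · rw [h 1 (by decide), h 2 (by decide)] at hx
      exact sq_col i _ _ _ (add_right_cancel hx)
    · rw [h 0 (by decide), h 2 (by decide)] at hx
      exact sq_row i _ _ _ (add_right_cancel hx)
    · rw [h 0 (by decide), h 1 (by decide)] at hx
      exact add_left_cancel hx
  funext k
  by_cases hk : k = j
  · rw [hk, hj]
  · exact h k hk

end Pool.Agent.P2d9e0f
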