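import Mathlib

set_option autoImplicit false

open Matrix Module

namespace Pool.Agent.P2d9e0f

theorem finrank_ker_comp_le {F V W U : Type*} [Field F] [AddCommGroup V] [Module F V]
    [AddCommGroup W] [Module F W] [AddCommGroup U] [Module F U] [FiniteDimensional F V]
    [FiniteDimensional F W] (f : V →ₗ[F] W) (g : W →ₗ[F] U) :
    finrank F (LinearMap.ker (g ∘ₗ f)) ≤
      finrank F (LinearMap.ker f) + finrank F (LinearMap.ker g) := by
  let h : LinearMap.ker (g ∘ₗ f) →ₗ[F] LinearMap.ker g :=
    (f.domRestrict (LinearMap.ker (g ∘ₗ f))).codRestrict (LinearMap.ker g) (fun x => by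
      have := x.2
      rw [LinearMap.mem_ker] at this ⊢
      exact this)
  have h1 := LinearMap.finrank_range_add_finrank_ker h
  have h2 : finrank F (LinearMap.range h) ≤ finrank F (LinearMap.ker g) := Submodule.finrank_le _
  have h3 : finrank F (LinearMap.ker h) ≤ finrank F (LinearMap.ker f) := by
    let k : LinearMap.ker h →ₗ[F] LinearMap.ker f :=
      ((LinearMap.ker (g ∘ₗ f)).subtype.domRestrict (LinearMap.ker h)).codRestrict
        (LinearMap.ker f) (fun x => by
          have := x.2
          rw [LinearMap.mem_ker] at this ⊢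
          exact congrArg Subtype.val this)
    refine LinearMap.finrank_le_finrank_of_injective (f := k) ?_
    intro x y hxy
    have := congrArg Subtype.val hxy
    exact Subtype.ext (Subtype.ext this)
  omega

/-- The incidence matrix of points and blocks. -/
def inc (π : Fin 4 → Fin 6 × Fin 6 → Fin 6) : Matrix (Fin 4 × Fin 6) (Fin 6 × Fin 6) (ZMod 2) :=
  Matrix.of fun p b => if π p.1 b = p.2 then 1 else 0

theorem card_fiber {π : Fin 4 → Fin 6 × Fin 6 → Fin 6}
    (H : ∀ g h, g ≠ h → Function.Bijective fun b => (π g b, π h b)) (g : Fin 4) (x : Fin 6) :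
    (Finset.univ.filter fun b => π g b = x).card = 6 := by
  obtain ⟨h, hne⟩ : ∃ h : Fin 4, g ≠ h := by
    rcases eq_or_ne g 0 with rfl | hg
    · exact ⟨1, by decide⟩
    · exact ⟨0, hg⟩
  have hb := H g h hne
  have : (Finset.univ.filter fun b => π g b = x).card = (Finset.univ : Finset (Fin 6)).card := by
    refine Finset.card_bij (fun b _ => π h b) (fun _ _ => Finset.mem_univ _) ?_ ?_
    · intro b hb1 c hc1 hbc
      rw [Finset.mem_filter] at hb1 hc1
      refine hb.1 ?_
      show (π g b, π h b) = (π g c, π h c)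
      rw [hb1.2, hc1.2, hbc]
    · intro y _
      obtain ⟨b, hb2⟩ := hb.2 (x, y)
      simp only [Prod.mk.injEq] at hb2
      exact ⟨b, by rw [Finset.mem_filter]; exact ⟨Finset.mem_univ _, hb2.1⟩, hb2.2⟩
  rw [this]
  rfl

theorem gram {π : Fin 4 → Fin 6 × Fin 6 → Fin 6}
    (H : ∀ g h, g ≠ h → Function.Bijective fun b => (π g b, π h b)) :
    inc π * (inc π)ᵀ =
      (Matrix.of fun (p : Fin 4 × Fin 6) (i : Fin 4) => if p.1 = i then (1 : ZMod 2) else 0) *
      (Matrix.of fun (i : Fin 4) (p : Fin 4 × Fin 6) => if i = p.1 then (0 : ZMod 2) else 1) := by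
  ext p q
  rw [Matrix.mul_apply, Matrix.mul_apply]
  simp only [inc, Matrix.of_apply, Matrix.transpose_apply, ite_mul, one_mul, zero_mul,
    Finset.sum_ite_eq, Finset.mem_univ, if_true]
  obtain ⟨g, x⟩ := p
  obtain ⟨h, y⟩ := q
  by_cases hgh : g = h
  · subst hgh
    rw [if_pos rfl]
    by_cases hxy : x = y
    · subst hxy
      simp only
      have : ∀ b, (if π g b = x then (if π g b = x then (1 : ZMod 2) else 0) else 0) =
          if π g b = x then 1 else 0 := by
        intro b
        by_cases hb : π g b = x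
        · simp [hb]
        · simp [hb]
      rw [Finset.sum_congr rfl (fun b _ => this b), Finset.sum_boole, card_fiber H]
      decide
    · refine Finset.sum_eq_zero (fun b _ => ?_)
      simp only
      by_cases hb : π g b = x
      · rw [if_pos hb, if_neg (fun h => hxy (hb.symm.trans h))]
      · rw [if_neg hb]
  · rw [if_neg hgh]
    obtain ⟨b, hb⟩ := (H g h hgh).2 (x, y)
    simp only [Prod.mk.injEq] at hb
    rw [Finset.sum_eq_single b]
    · simp only
      rw [if_pos hb.1, if_pos hb.2]
    · intro c _ hc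
      simp only
      by_cases h1 : π g c = x
      · rw [if_pos h1]
        refine if_neg (fun h2 => hc ((H g h hgh).1 ?_))
        show (π g c, π h c) = (π g b, π h b)
        rw [h1, h2, hb.1, hb.2]
      · rw [if_neg h1]
    · intro h
      exact absurd (Finset.mem_univ _) h

/-- The kernel of the dependencies has dimension at least four. -/
theorem four_le {π : Fin 4 → Fin 6 × Fin 6 → Fin 6}
    (H : ∀ g h, g ≠ h → Function.Bijective fun b => (π g b, π h b)) :
    4 ≤ finrank (ZMod 2) (LinearMap.ker (Matrix.mulVecLin (inc π)ᵀ)) := by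
  have h1 : (inc π * (inc π)ᵀ).rank ≤ 4 := by
    rw [gram H]
    refine (Matrix.rank_mul_le_left _ _).trans ?_
    exact (Matrix.rank_le_card_width _).trans (by simp)
  have h2 := finrank_ker_comp_le (Matrix.mulVecLin (inc π)ᵀ) (Matrix.mulVecLin (inc π))
  rw [← Matrix.mulVecLin_mul] at h2
  have h3 := LinearMap.finrank_range_add_finrank_ker (Matrix.mulVecLin (inc π * (inc π)ᵀ))
  have h4 := LinearMap.finrank_range_add_finrank_ker (Matrix.mulVecLin (inc π)ᵀ)
  have h5 := LinearMap.finrank_range_add_finrank_ker (Matrix.mulVecLin (inc π))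
  have h6 : (inc π)ᵀ.rank = (inc π).rank := Matrix.rank_transpose _
  rw [Matrix.rank] at h1
  rw [Matrix.rank, Matrix.rank] at h6
  rw [Module.finrank_fintype_fun_eq_card] at h3 h4 h5
  simp only [Fintype.card_prod, Fintype.card_fin] at h3 h4 h5
  omega

/-- There is a nontrivial dependency. -/
theorem exists_dep {π : Fin 4 → Fin 6 × Fin 6 → Fin 6}
    (H : ∀ g h, g ≠ h → Function.Bijective fun b => (π g b, π h b)) :
    ∃ y : Fin 4 → Fin 6 → ZMod 2, (∀ b, ∑ g, y g (π g b) = 0) ∧ ∃ g x x', y g x ≠ y g x' := by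
  by_contra hcon
  push Not at hcon
  have hker : ∀ v : Fin 4 × Fin 6 → ZMod 2, v ∈ LinearMap.ker (Matrix.mulVecLin (inc π)ᵀ) →
      ∀ b, ∑ g, v (g, π g b) = 0 := by
    intro v hv b
    rw [LinearMap.mem_ker] at hv
    have := congrFun hv b
    rw [Matrix.mulVecLin_apply, Matrix.mulVec, dotProduct] at this
    simp only [inc, Matrix.transpose_apply, Matrix.of_apply, ite_mul, one_mul, zero_mul,
      Pi.zero_apply] at this
    rw [Fintype.sum_prod_type] at this
    rw [← this]
    refine Finset.sum_congr rfl (fun g _ => ?_)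
    simp
  let k : LinearMap.ker (Matrix.mulVecLin (inc π)ᵀ) →ₗ[ZMod 2] (Fin 3 → ZMod 2) :=
    { toFun := fun v i => v.1 (i.castSucc, 0)
      map_add' := fun _ _ => rfl
      map_smul' := fun _ _ => rfl }
  have hinj : Function.Injective k := by
    rw [← LinearMap.ker_eq_bot, LinearMap.ker_eq_bot']
    rintro ⟨v, hv⟩ hk
    have h1 := hcon (fun g x => v (g, x)) (hker v hv)
    have h2 : ∀ i : Fin 3, v (i.castSucc, 0) = 0 := fun i => congrFun hk i
    have h3 : ∀ g x, v (g, x) = v (g, 0) := fun g x => h1 g x 0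
    have h4 := hker v hv (0, 0)
    rw [Fin.sum_univ_castSucc] at h4
    rw [Finset.sum_eq_zero (fun i _ => by rw [h3, h2 i]), zero_add, h3] at h4
    refine Subtype.ext ?_
    funext p
    obtain ⟨g, x⟩ := p
    show v (g, x) = 0
    rw [h3]
    rcases Fin.eq_castSucc_or_eq_last g with ⟨i, rfl⟩ | rfl
    · exact h2 i
    · exact h4
  have h1 := LinearMap.finrank_le_finrank_of_injective hinj
  have h2 := four_le H
  rw [Module.finrank_fintype_fun_eq_card, Fintype.card_fin] at h1
  omega

end Pool.Agent.P2d9e0f
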