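import Pool.Agent.Lib.P2d9e0f.Kern

set_option autoImplicit false

namespace Pool.Agent.P2d9e0f

/-- The cells in the order of the search. -/
def cells : List (ℕ × ℕ) :=
  [(1, 0), (2, 0), (3, 0), (4, 0), (5, 0), (1, 1), (1, 2), (1, 3), (1, 4), (1, 5),
   (2, 1), (2, 2), (2, 3), (2, 4), (2, 5), (3, 1), (3, 2), (3, 3), (3, 4), (3, 5),
   (4, 1), (4, 2), (4, 3), (4, 4), (4, 5), (5, 1), (5, 2), (5, 3), (5, 4), (5, 5)]

/-- The mark of an index: `1` if it is one of the two marked indices `0, 1`. -/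
def mk (x : ℕ) : ℕ := if x < 2 then 1 else 0

/-- The condition on the entries `(l, m)` of the cell `(i, j)`. -/
def ok (i j l m : ℕ) : Bool :=
  (mk i + mk j + mk l + mk m == 0 || mk i + mk j + mk l + mk m == 2) &&
  (!(i == 2 && j == 0) || l == 0) && (!(i == 3 && j == 0) || l == 1) &&
  (!(i == 4 && j == 0) || m == 0) && (!(i == 5 && j == 0) || m == 1)

/-- The mask of the first row. -/
def st0 : ℕ := 48311809528462835856436411624198303737091690730618943

/-- The candidate masks of a cell. -/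
def candOf (p : ℕ × ℕ) : List ℕ :=
  ((List.range 36).filter fun q => ok p.1 p.2 (q / 6) (q % 6) &&
    (Nat.land st0 (msk p.1 p.2 (q / 6) (q % 6)) == 0)).map fun q => msk p.1 p.2 (q / 6) (q % 6)

theorem cands_eq : cands = cells.map candOf := by
  decide +kernel

theorem st0_eq : st0 = Nat.lor (Nat.lor (Nat.lor (Nat.lor (Nat.lor (msk 0 0 2 2) (msk 0 1 3 3))
    (msk 0 2 0 4)) (msk 0 3 1 5)) (msk 0 4 4 0)) (msk 0 5 5 1) := by
  decide +kernel

theorem mem_candOf {p : ℕ × ℕ} {l m : ℕ} (hl : l < 6) (hm : m < 6) (h1 : ok p.1 p.2 l m = true)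
    (h2 : Nat.land st0 (msk p.1 p.2 l m) = 0) : msk p.1 p.2 l m ∈ candOf p := by
  rw [candOf, List.mem_map]
  have e1 : (6 * l + m) / 6 = l := by omega
  have e2 : (6 * l + m) % 6 = m := by omega
  refine ⟨6 * l + m, ?_, by rw [e1, e2]⟩
  rw [List.mem_filter, List.mem_range, e1, e2, h1, h2]
  exact ⟨by omega, rfl⟩

theorem cells_lt : ∀ p ∈ cells, p.1 < 6 ∧ p.2 < 6 ∧ 0 < p.1 := by decide

theorem cells_nodup : cells.Pairwise (· ≠ ·) := by decide

/-- There is no pair of orthogonal Latin squares of order six in the normal form. -/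
theorem no_normal (L M : ℕ → ℕ → ℕ)
    (hL : ∀ i j, i < 6 → j < 6 → L i j < 6) (hM : ∀ i j, i < 6 → j < 6 → M i j < 6)
    (hLr : ∀ i j j', i < 6 → j < 6 → j' < 6 → L i j = L i j' → j = j')
    (hLc : ∀ i i' j, i < 6 → i' < 6 → j < 6 → L i j = L i' j → i = i')
    (hMr : ∀ i j j', i < 6 → j < 6 → j' < 6 → M i j = M i j' → j = j')
    (hMc : ∀ i i' j, i < 6 → i' < 6 → j < 6 → M i j = M i' j → i = i')
    (hO : ∀ i j i' j', i < 6 → j < 6 → i' < 6 → j' < 6 → L i j = L i' j' → M i j = M i' j' →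
      i = i' ∧ j = j')
    (hL0 : L 0 0 = 2 ∧ L 0 1 = 3 ∧ L 0 2 = 0 ∧ L 0 3 = 1 ∧ L 0 4 = 4 ∧ L 0 5 = 5)
    (hM0 : M 0 0 = 2 ∧ M 0 1 = 3 ∧ M 0 2 = 4 ∧ M 0 3 = 5 ∧ M 0 4 = 0 ∧ M 0 5 = 1)
    (hL2 : L 2 0 = 0) (hL3 : L 3 0 = 1) (hM4 : M 4 0 = 0) (hM5 : M 5 0 = 1)
    (hmk : ∀ i j, i < 6 → j < 6 → mk i + mk j + mk (L i j) + mk (M i j) = 0 ∨
      mk i + mk j + mk (L i j) + mk (M i j) = 2) : False := by
  have hdis : ∀ i j i' j', i < 6 → j < 6 → i' < 6 → j' < 6 → (i, j) ≠ (i', j') →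
      Nat.land (msk i j (L i j) (M i j)) (msk i' j' (L i' j') (M i' j')) = 0 := by
    intro i j i' j' hi hj hi' hj' hne
    refine msk_land hi hj (hL _ _ hi hj) (hM _ _ hi hj) hi' hj' (hL _ _ hi' hj') (hM _ _ hi' hj')
      ?_ ?_ ?_ ?_ ?_
    · rintro rfl h
      exact hne (by rw [hLr _ _ _ hi hj hj' h])
    · rintro rfl h
      exact hne (by rw [hLc _ _ _ hi hi' hj h])
    · rintro rfl h
      exact hne (by rw [hMr _ _ _ hi hj hj' h])
    · rintro rfl h
      exact hne (by rw [hMc _ _ _ hi hi' hj h])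
    · intro h1 h2
      obtain ⟨h3, h4⟩ := hO _ _ _ _ hi hj hi' hj' h1 h2
      exact hne (by rw [h3, h4])
  obtain ⟨a0, a1, a2, a3, a4, a5⟩ := hL0
  obtain ⟨b0, b1, b2, b3, b4, b5⟩ := hM0
  have hst : ∀ i j, i < 6 → j < 6 → 0 < i → Nat.land st0 (msk i j (L i j) (M i j)) = 0 := by
    intro i j hi hj h0
    have hne : ∀ c, ((0 : ℕ), c) ≠ (i, j) := fun c h => by
      have := congrArg Prod.fst h
      simp only at this
      omega
    have c0 := hdis 0 0 i j (by omega) (by omega) hi hj (hne 0)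
    have c1 := hdis 0 1 i j (by omega) (by omega) hi hj (hne 1)
    have c2 := hdis 0 2 i j (by omega) (by omega) hi hj (hne 2)
    have c3 := hdis 0 3 i j (by omega) (by omega) hi hj (hne 3)
    have c4 := hdis 0 4 i j (by omega) (by omega) hi hj (hne 4)
    have c5 := hdis 0 5 i j (by omega) (by omega) hi hj (hne 5)
    rw [a0, b0] at c0
    rw [a1, b1] at c1
    rw [a2, b2] at c2
    rw [a3, b3] at c3
    rw [a4, b4] at c4
    rw [a5, b5] at c5
    rw [st0_eq]
    exact lor_land_eq_zero (lor_land_eq_zero (lor_land_eq_zero (lor_land_eq_zero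
      (lor_land_eq_zero c0 c1) c2) c3) c4) c5
  have key : srch cands st0 = true := by
    refine srch_sound cands (cells.map fun p => msk p.1 p.2 (L p.1 p.2) (M p.1 p.2)) st0 ?_ ?_ ?_
    · rw [cands_eq, List.forall₂_map_left_iff, List.forall₂_map_right_iff, List.forall₂_same]
      intro p hp
      obtain ⟨h1, h2, h3⟩ := cells_lt p hp
      refine mem_candOf (hL _ _ h1 h2) (hM _ _ h1 h2) ?_ (hst _ _ h1 h2 h3)
      have hk := hmk p.1 p.2 h1 h2
      have k2 : p.1 = 2 → p.2 = 0 → L p.1 p.2 = 0 := by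
        intro e1 e2; rw [e1, e2, hL2]
      have k3 : p.1 = 3 → p.2 = 0 → L p.1 p.2 = 1 := by
        intro e1 e2; rw [e1, e2, hL3]
      have k4 : p.1 = 4 → p.2 = 0 → M p.1 p.2 = 0 := by
        intro e1 e2; rw [e1, e2, hM4]
      have k5 : p.1 = 5 → p.2 = 0 → M p.1 p.2 = 1 := by
        intro e1 e2; rw [e1, e2, hM5]
      simp only [ok, Bool.and_eq_true, Bool.or_eq_true, beq_iff_eq, Bool.not_eq_true',
        Bool.and_eq_false_iff, beq_eq_false_iff_ne]
      refine ⟨⟨⟨⟨hk, ?_⟩, ?_⟩, ?_⟩, ?_⟩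
      · by_cases e1 : p.1 = 2
        · by_cases e2 : p.2 = 0
          · exact Or.inr (k2 e1 e2)
          · exact Or.inl (Or.inr e2)
        · exact Or.inl (Or.inl e1)
      · by_cases e1 : p.1 = 3
        · by_cases e2 : p.2 = 0
          · exact Or.inr (k3 e1 e2)
          · exact Or.inl (Or.inr e2)
        · exact Or.inl (Or.inl e1)
      · by_cases e1 : p.1 = 4
        · by_cases e2 : p.2 = 0
          · exact Or.inr (k4 e1 e2)
          · exact Or.inl (Or.inr e2)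
        · exact Or.inl (Or.inl e1)
      · by_cases e1 : p.1 = 5
        · by_cases e2 : p.2 = 0
          · exact Or.inr (k5 e1 e2)
          · exact Or.inl (Or.inr e2)
        · exact Or.inl (Or.inl e1)
    · intro k hk
      rw [List.mem_map] at hk
      obtain ⟨p, hp, rfl⟩ := hk
      obtain ⟨h1, h2, h3⟩ := cells_lt p hp
      exact hst _ _ h1 h2 h3
    · rw [List.pairwise_map]
      refine List.Pairwise.imp_of_mem ?_ cells_nodup
      intro p q hp hq hne
      obtain ⟨h1, h2, -⟩ := cells_lt p hp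
      obtain ⟨h3, h4, -⟩ := cells_lt q hq
      exact hdis _ _ _ _ h1 h2 h3 h4 hne
  have := srch_cands
  rw [show (48311809528462835856436411624198303737091690730618943 : ℕ) = st0 from rfl, key] at this
  exact Bool.noConfusion this

end Pool.Agent.P2d9e0f
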