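import Pool.Agent.Lib.P2d9e0f.Comb
import Pool.Agent.Lib.P2d9e0f.Normal

set_option autoImplicit false

open Finset

namespace Pool.Agent.P2d9e0f

/-- The extension of a function on `Fin 6 × Fin 6` to pairs of natural numbers. -/
def ext6 (F : Fin 6 → Fin 6 → Fin 6) (i j : ℕ) : ℕ :=
  if h : i < 6 then if h' : j < 6 then (F ⟨i, h⟩ ⟨j, h'⟩).val else 0 else 0

theorem ext6_eq (F : Fin 6 → Fin 6 → Fin 6) (i j : Fin 6) : ext6 F i j = (F i j).val := by
  rw [ext6, dif_pos i.2, dif_pos j.2]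

theorem no_normal' (L M : Fin 6 → Fin 6 → Fin 6)
    (hLr : ∀ i, Function.Injective (L i)) (hLc : ∀ j, Function.Injective fun i => L i j)
    (hMr : ∀ i, Function.Injective (M i)) (hMc : ∀ j, Function.Injective fun i => M i j)
    (hO : ∀ i j i' j', L i j = L i' j' → M i j = M i' j' → i = i' ∧ j = j')
    (hL0 : ∀ j, L 0 j = ![2, 3, 0, 1, 4, 5] j) (hM0 : ∀ j, M 0 j = ![2, 3, 4, 5, 0, 1] j)
    (hL2 : L 2 0 = 0) (hL3 : L 3 0 = 1) (hM4 : M 4 0 = 0) (hM5 : M 5 0 = 1)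
    (hmk : ∀ i j, mk i.val + mk j.val + mk (L i j).val + mk (M i j).val = 0 ∨
      mk i.val + mk j.val + mk (L i j).val + mk (M i j).val = 2) : False := by
  have lift : ∀ i : ℕ, i < 6 → ∃ i' : Fin 6, i = i'.val := fun i hi => ⟨⟨i, hi⟩, rfl⟩
  refine no_normal (ext6 L) (ext6 M) ?_ ?_ ?_ ?_ ?_ ?_ ?_ ?_ ?_ ?_ ?_ ?_ ?_ ?_
  · intro i j hi hj
    obtain ⟨i, rfl⟩ := lift i hi
    obtain ⟨j, rfl⟩ := lift j hj
    rw [ext6_eq]; exact (L i j).2
  · intro i j hi hj
    obtain ⟨i, rfl⟩ := lift i hi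
    obtain ⟨j, rfl⟩ := lift j hj
    rw [ext6_eq]; exact (M i j).2
  · intro i j j' hi hj hj' h
    obtain ⟨i, rfl⟩ := lift i hi
    obtain ⟨j, rfl⟩ := lift j hj
    obtain ⟨j', rfl⟩ := lift j' hj'
    rw [ext6_eq, ext6_eq] at h
    exact congrArg Fin.val (hLr i (Fin.ext h))
  · intro i i' j hi hi' hj h
    obtain ⟨i, rfl⟩ := lift i hi
    obtain ⟨i', rfl⟩ := lift i' hi'
    obtain ⟨j, rfl⟩ := lift j hj
    rw [ext6_eq, ext6_eq] at h
    exact congrArg Fin.val (hLc j (Fin.ext h))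
  · intro i j j' hi hj hj' h
    obtain ⟨i, rfl⟩ := lift i hi
    obtain ⟨j, rfl⟩ := lift j hj
    obtain ⟨j', rfl⟩ := lift j' hj'
    rw [ext6_eq, ext6_eq] at h
    exact congrArg Fin.val (hMr i (Fin.ext h))
  · intro i i' j hi hi' hj h
    obtain ⟨i, rfl⟩ := lift i hi
    obtain ⟨i', rfl⟩ := lift i' hi'
    obtain ⟨j, rfl⟩ := lift j hj
    rw [ext6_eq, ext6_eq] at h
    exact congrArg Fin.val (hMc j (Fin.ext h))
  · intro i j i' j' hi hj hi' hj' h1 h2
    obtain ⟨i, rfl⟩ := lift i hi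
    obtain ⟨j, rfl⟩ := lift j hj
    obtain ⟨i', rfl⟩ := lift i' hi'
    obtain ⟨j', rfl⟩ := lift j' hj'
    rw [ext6_eq, ext6_eq] at h1 h2
    obtain ⟨h3, h4⟩ := hO _ _ _ _ (Fin.ext h1) (Fin.ext h2)
    exact ⟨congrArg Fin.val h3, congrArg Fin.val h4⟩
  · refine ⟨?_, ?_, ?_, ?_, ?_, ?_⟩
    · exact (ext6_eq L 0 0).trans (congrArg Fin.val (hL0 0))
    · exact (ext6_eq L 0 1).trans (congrArg Fin.val (hL0 1))
    · exact (ext6_eq L 0 2).trans (congrArg Fin.val (hL0 2))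
    · exact (ext6_eq L 0 3).trans (congrArg Fin.val (hL0 3))
    · exact (ext6_eq L 0 4).trans (congrArg Fin.val (hL0 4))
    · exact (ext6_eq L 0 5).trans (congrArg Fin.val (hL0 5))
  · refine ⟨?_, ?_, ?_, ?_, ?_, ?_⟩
    · exact (ext6_eq M 0 0).trans (congrArg Fin.val (hM0 0))
    · exact (ext6_eq M 0 1).trans (congrArg Fin.val (hM0 1))
    · exact (ext6_eq M 0 2).trans (congrArg Fin.val (hM0 2))
    · exact (ext6_eq M 0 3).trans (congrArg Fin.val (hM0 3))
    · exact (ext6_eq M 0 4).trans (congrArg Fin.val (hM0 4))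
    · exact (ext6_eq M 0 5).trans (congrArg Fin.val (hM0 5))
  · exact (ext6_eq L 2 0).trans (congrArg Fin.val hL2)
  · exact (ext6_eq L 3 0).trans (congrArg Fin.val hL3)
  · exact (ext6_eq M 4 0).trans (congrArg Fin.val hM4)
  · exact (ext6_eq M 5 0).trans (congrArg Fin.val hM5)
  · intro i j hi hj
    obtain ⟨i, rfl⟩ := lift i hi
    obtain ⟨j, rfl⟩ := lift j hj
    rw [ext6_eq, ext6_eq]
    exact hmk i j

theorem nn_two {y : Fin 4 → Fin 6 → ZMod 2} {g : Fin 4} (h : nn y g = 2) :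
    ∃ a b, a ≠ b ∧ ∀ x, y g x = 1 ↔ x = a ∨ x = b := by
  rw [nn, Finset.card_eq_two] at h
  obtain ⟨a, b, hab, hs⟩ := h
  refine ⟨a, b, hab, fun x => ?_⟩
  have : x ∈ (univ.filter fun x => y g x = 1) ↔ x ∈ ({a, b} : Finset (Fin 6)) := by rw [hs]
  simpa using this

/-- An arrangement of a line: two points of the first kind, two of the second, two of the
third. -/
theorem arrange (u : Fin 6 → ZMod 2) (A B : Fin 6 → Fin 6) (s t : Fin 6 → ZMod 2)
    (hA : Function.Injective A) (hB : Function.Injective B)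
    {u0 u1 s0 s1 t0 t1 : Fin 6} (hu : u0 ≠ u1) (hs : s0 ≠ s1) (ht : t0 ≠ t1)
    (hu' : ∀ x, u x = 1 ↔ x = u0 ∨ x = u1) (hs' : ∀ x, s x = 1 ↔ x = s0 ∨ x = s1)
    (ht' : ∀ x, t x = 1 ↔ x = t0 ∨ x = t1)
    (h1 : ∀ x, ¬ (u x = 1 ∧ s (A x) = 1)) (h2 : ∀ x, ¬ (u x = 1 ∧ t (B x) = 1))
    (h3 : ∀ x, ¬ (s (A x) = 1 ∧ t (B x) = 1)) :
    ∃ e : Fin 6 ≃ Fin 6, e 0 = u0 ∧ e 1 = u1 ∧ A (e 2) = s0 ∧ A (e 3) = s1 ∧ B (e 4) = t0 ∧
      B (e 5) = t1 := by
  have hA' : Function.Surjective A := Finite.surjective_of_injective hA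
  have hB' : Function.Surjective B := Finite.surjective_of_injective hB
  obtain ⟨a0, ha0⟩ := hA' s0
  obtain ⟨a1, ha1⟩ := hA' s1
  obtain ⟨b0, hb0⟩ := hB' t0
  obtain ⟨b1, hb1⟩ := hB' t1
  have U0 : u u0 = 1 := (hu' _).2 (Or.inl rfl)
  have U1 : u u1 = 1 := (hu' _).2 (Or.inr rfl)
  have A0 : s (A a0) = 1 := (hs' _).2 (Or.inl ha0)
  have A1 : s (A a1) = 1 := (hs' _).2 (Or.inr ha1)
  have B0 : t (B b0) = 1 := (ht' _).2 (Or.inl hb0)
  have B1 : t (B b1) = 1 := (ht' _).2 (Or.inr hb1)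
  have n1 : ∀ x z, u x = 1 → s (A z) = 1 → x ≠ z := by
    rintro x z hx hz rfl; exact h1 x ⟨hx, hz⟩
  have n2 : ∀ x z, u x = 1 → t (B z) = 1 → x ≠ z := by
    rintro x z hx hz rfl; exact h2 x ⟨hx, hz⟩
  have n3 : ∀ x z, s (A x) = 1 → t (B z) = 1 → x ≠ z := by
    rintro x z hx hz rfl; exact h3 x ⟨hx, hz⟩
  have hne1 : a0 ≠ a1 := by rintro rfl; exact hs (ha0.symm.trans ha1)
  have hne2 : b0 ≠ b1 := by rintro rfl; exact ht (hb0.symm.trans hb1)
  have hinj : Function.Injective ![u0, u1, a0, a1, b0, b1] := by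
    have e01 := hu
    have e02 := n1 _ _ U0 A0
    have e03 := n1 _ _ U0 A1
    have e04 := n2 _ _ U0 B0
    have e05 := n2 _ _ U0 B1
    have e12 := n1 _ _ U1 A0
    have e13 := n1 _ _ U1 A1
    have e14 := n2 _ _ U1 B0
    have e15 := n2 _ _ U1 B1
    have e24 := n3 _ _ A0 B0
    have e25 := n3 _ _ A0 B1
    have e34 := n3 _ _ A1 B0
    have e35 := n3 _ _ A1 B1
    intro i j hij
    fin_cases i <;> fin_cases j <;>
      first
        | rfl
        | (exfalso; simp [Matrix.cons_val_zero] at hij; first | exact e01 hij | exact e02 hij | exact e03 hij | exact e04 hij | exact e05 hij | exact e12 hij | exact e13 hij | exact e14 hij | exact e15 hij | exact hne1 hij | exact e24 hij | exact e25 hij | exact e34 hij | exact e35 hij | exact hne2 hij | exact e01 hij.symm | exact e02 hij.symm | exact e03 hij.symm | exact e04 hij.symm | exact e05 hij.symm | exact e12 hij.symm | exact e13 hij.symm | exact e14 hij.symm | exact e15 hij.symm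 | exact hne1 hij.symm | exact e24 hij.symm | exact e25 hij.symm | exact e34 hij.symm | exact e35 hij.symm | exact hne2 hij.symm)
  let e : Fin 6 ≃ Fin 6 := Equiv.ofBijective _ (Finite.injective_iff_bijective.1 hinj)
  exact ⟨e, rfl, rfl, ha0, ha1, hb0, hb1⟩

theorem mk_eq {u : Fin 6 → ZMod 2} {a b : Fin 6} (hu : ∀ x, u x = 1 ↔ x = a ∨ x = b)
    {f : Fin 6 → Fin 6} (hf : Function.Injective f) (ha : f a = 0) (hb : f b = 1) (x : Fin 6) :
    (if u x = 1 then 1 else 0) = mk (f x).val := by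
  have h0 : ∀ z : Fin 6, z.val < 2 ↔ z = 0 ∨ z = 1 := by decide
  rw [mk]
  congr 1
  rw [hu, h0, ← ha, ← hb, hf.eq_iff, hf.eq_iff]

theorem bij_aux {f g : Fin 6 × Fin 6 → Fin 6}
    (h : ∀ r c r' c', f (r, c) = f (r', c') → g (r, c) = g (r', c') → r = r' ∧ c = c') :
    Function.Bijective fun b => (f b, g b) := by
  refine Finite.injective_iff_bijective.1 ?_
  rintro ⟨r, c⟩ ⟨r', c'⟩ hb
  simp only [Prod.mk.injEq] at hb
  obtain ⟨h1, h2⟩ := h r c r' c' hb.1 hb.2
  rw [h1, h2]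

/-- Tarry's theorem: there is no pair of orthogonal Latin squares of order six. -/
theorem tarry (L M : Fin 6 → Fin 6 → Fin 6)
    (hLr : ∀ r, Function.Injective (L r)) (hLc : ∀ c, Function.Injective fun r => L r c)
    (hMr : ∀ r, Function.Injective (M r)) (hMc : ∀ c, Function.Injective fun r => M r c)
    (hO : ∀ r c r' c', L r c = L r' c' → M r c = M r' c' → r = r' ∧ c = c') : False := by
  let π : Fin 4 → Fin 6 × Fin 6 → Fin 6 :=
    ![fun b => b.1, fun b => b.2, fun b => L b.1 b.2, fun b => M b.1 b.2]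
  have H : ∀ g h, g ≠ h → Function.Bijective fun b => (π g b, π h b) := by
    intro g h hgh
    refine bij_aux ?_
    intro r c r' c' h1 h2
    rcases fin4 g with rfl | rfl | rfl | rfl <;> rcases fin4 h with rfl | rfl | rfl | rfl
    · exact absurd rfl hgh
    · exact ⟨h1, h2⟩
    · have e : r = r' := h1
      subst e
      exact ⟨rfl, hLr r h2⟩
    · have e : r = r' := h1
      subst e
      exact ⟨rfl, hMr r h2⟩
    · exact ⟨h2, h1⟩
    · exact absurd rfl hgh
    · have e : c = c' := h1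
      subst e
      exact ⟨hLc c h2, rfl⟩
    · have e : c = c' := h1
      subst e
      exact ⟨hMc c h2, rfl⟩
    · have e : r = r' := h2
      subst e
      exact ⟨rfl, hLr r h1⟩
    · have e : c = c' := h2
      subst e
      exact ⟨hLc c h1, rfl⟩
    · exact absurd rfl hgh
    · exact hO _ _ _ _ h1 h2
    · have e : r = r' := h2
      subst e
      exact ⟨rfl, hMr r h1⟩
    · have e : c = c' := h2
      subst e
      exact ⟨hMc c h1, rfl⟩
    · exact hO _ _ _ _ h2 h1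
    · exact absurd rfl hgh
  obtain ⟨y, hn, hs⟩ := exists_two H
  have hs' : ∀ r c, (if y 0 r = 1 then 1 else 0) + (if y 1 c = 1 then 1 else 0) +
      (if y 2 (L r c) = 1 then 1 else 0) + (if y 3 (M r c) = 1 then 1 else 0) = 0 ∨
      (if y 0 r = 1 then 1 else 0) + (if y 1 c = 1 then 1 else 0) +
      (if y 2 (L r c) = 1 then 1 else 0) + (if y 3 (M r c) = 1 then 1 else 0) = 2 := by
    intro r c
    have h := hs (r, c)
    rw [ss, Finset.card_filter, Fin.sum_univ_four] at h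
    exact h
  obtain ⟨r0, r1, hr, hR⟩ := nn_two (hn 0)
  obtain ⟨c0, c1, hc, hC⟩ := nn_two (hn 1)
  obtain ⟨s0, s1, hss, hS⟩ := nn_two (hn 2)
  obtain ⟨t0, t1, ht, hT⟩ := nn_two (hn 3)
  have yr0 : y 0 r0 = 1 := (hR _).2 (Or.inl rfl)
  have yc0 : y 1 c0 = 1 := (hC _).2 (Or.inl rfl)
  obtain ⟨γ, g0, g1, g2, g3, g4, g5⟩ := arrange (y 1) (L r0) (M r0) (y 2) (y 3) (hLr r0) (hMr r0)
    hc hss ht hC hS hT
    (fun x hx => by
      have h := hs' r0 x
      rw [if_pos yr0, if_pos hx.1, if_pos hx.2] at h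
      omega)
    (fun x hx => by
      have h := hs' r0 x
      rw [if_pos yr0, if_pos hx.1, if_pos hx.2] at h
      omega)
    (fun x hx => by
      have h := hs' r0 x
      rw [if_pos yr0, if_pos hx.1, if_pos hx.2] at h
      omega)
  obtain ⟨ρ, e0, e1, e2, e3, e4, e5⟩ := arrange (y 0) (fun r => L r c0) (fun r => M r c0) (y 2)
    (y 3) (hLc c0) (hMc c0) hr hss ht hR hS hT
    (fun x hx => by
      have h := hs' x c0
      rw [if_pos yc0, if_pos hx.1, if_pos hx.2] at h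
      omega)
    (fun x hx => by
      have h := hs' x c0
      rw [if_pos yc0, if_pos hx.1, if_pos hx.2] at h
      omega)
    (fun x hx => by
      have h := hs' x c0
      rw [if_pos yc0, if_pos hx.1, if_pos hx.2] at h
      omega)
  let lam : Fin 6 ≃ Fin 6 := Equiv.ofBijective ![2, 3, 0, 1, 4, 5]
    (Finite.injective_iff_bijective.1 (by decide))
  let mu : Fin 6 ≃ Fin 6 := Equiv.ofBijective ![2, 3, 4, 5, 0, 1]
    (Finite.injective_iff_bijective.1 (by decide))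
  let eL : Fin 6 ≃ Fin 6 := γ.trans (Equiv.ofBijective (L r0)
    (Finite.injective_iff_bijective.1 (hLr r0)))
  let eM : Fin 6 ≃ Fin 6 := γ.trans (Equiv.ofBijective (M r0)
    (Finite.injective_iff_bijective.1 (hMr r0)))
  let al : Fin 6 ≃ Fin 6 := eL.symm.trans lam
  let be : Fin 6 ≃ Fin 6 := eM.symm.trans mu
  have hal : ∀ j, al (L r0 (γ j)) = ![2, 3, 0, 1, 4, 5] j := by
    intro j
    show lam (eL.symm (eL j)) = _
    rw [Equiv.symm_apply_apply]
    rfl
  have hbe : ∀ j, be (M r0 (γ j)) = ![2, 3, 4, 5, 0, 1] j := by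
    intro j
    show mu (eM.symm (eM j)) = _
    rw [Equiv.symm_apply_apply]
    rfl
  have al0 : al s0 = 0 := by rw [← g2, hal]; rfl
  have al1 : al s1 = 1 := by rw [← g3, hal]; rfl
  have be0 : be t0 = 0 := by rw [← g4, hbe]; rfl
  have be1 : be t1 = 1 := by rw [← g5, hbe]; rfl
  refine no_normal' (fun i j => al (L (ρ i) (γ j))) (fun i j => be (M (ρ i) (γ j)))
    ?_ ?_ ?_ ?_ ?_ ?_ ?_ ?_ ?_ ?_ ?_ ?_
  · intro i j j' h
    exact γ.injective (hLr _ (al.injective h))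
  · intro j i i' h
    exact ρ.injective (hLc _ (al.injective h))
  · intro i j j' h
    exact γ.injective (hMr _ (be.injective h))
  · intro j i i' h
    exact ρ.injective (hMc _ (be.injective h))
  · intro i j i' j' h1 h2
    obtain ⟨h3, h4⟩ := hO _ _ _ _ (al.injective h1) (be.injective h2)
    exact ⟨ρ.injective h3, γ.injective h4⟩
  · intro j
    show al (L (ρ 0) (γ j)) = _
    rw [e0, hal]
  · intro j
    show be (M (ρ 0) (γ j)) = _
    rw [e0, hbe]
  · show al (L (ρ 2) (γ 0)) = 0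
    rw [g0]
    exact (congrArg al e2).trans al0
  · show al (L (ρ 3) (γ 0)) = 1
    rw [g0]
    exact (congrArg al e3).trans al1
  · show be (M (ρ 4) (γ 0)) = 0
    rw [g0]
    exact (congrArg be e4).trans be0
  · show be (M (ρ 5) (γ 0)) = 1
    rw [g0]
    exact (congrArg be e5).trans be1
  · intro i j
    have h := hs' (ρ i) (γ j)
    rw [mk_eq hR ρ.symm.injective (by rw [← e0, Equiv.symm_apply_apply])
        (by rw [← e1, Equiv.symm_apply_apply]) (ρ i),
      mk_eq hC γ.symm.injective (by rw [← g0, Equiv.symm_apply_apply])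
        (by rw [← g1, Equiv.symm_apply_apply]) (γ j),
      mk_eq hS al.injective al0 al1, mk_eq hT be.injective be0 be1,
      Equiv.symm_apply_apply, Equiv.symm_apply_apply] at h
    exact h

end Pool.Agent.P2d9e0f
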